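import Mathlib.Analysis.SpecialFunctions.Pow.Real

/-!
The Diophantine equation satisfied by the parameters of a block-transitive 6-design whose group
has order dividing `e v (v - 1) (v - 2)`.
-/

set_option autoImplicit false

namespace Pool.Agent.MP_47ed89_co.H58

lemma form_ne {e m : ℤ} (he : 0 < e) : 5 * m ^ 2 - 1096 * e * m + 38400 * e ^ 2 ≠ 0 := by
  intro h
  have h1 : (5 * m - 548 * e) ^ 2 = e ^ 2 * 108304 := by linear_combination 5 * h
  obtain ⟨y, hy⟩ := (Int.pow_dvd_pow_iff two_ne_zero).1 (Dvd.intro _ h1.symm)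
  have h2 : y ^ 2 = 108304 := by
    refine mul_left_cancel₀ (pow_ne_zero 2 he.ne') ?_
    rw [← h1, hy]
    ring
  rw [← sq_abs] at h2
  have h3 := abs_nonneg y
  rcases le_or_gt |y| 329 with c | c <;> nlinarith

/-- The small parameter `u` divides an explicit nonzero integer. -/
lemma dvd_cases {e T a u β ρ : ℤ} (he : 0 < e) (hu : 0 < u) (hρ : 2 * T * a = 120 * e + ρ * u)
    (h : T * (a * (a * u + 1) * (a * u + 2)) =
      e * ((β * u + 1) * (β * u + 2) * (β * u + 3) * (β * u + 4) * (β * u + 5))) :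
    u ≤ 960 * e * |T * ρ + 10800 * e ^ 2 - 274 * e * (T * β)| ∨
      (T * ρ + 10800 * e ^ 2 = 274 * e * (T * β) ∧
        u ≤ 360 * e * |5 * (T * β) ^ 2 - 1096 * e * (T * β) + 38400 * e ^ 2|) := by
  have key : 8 * T * (T * ρ + 10800 * e ^ 2 - 274 * e * (T * β)) +
      u * (1728000 * e ^ 3 + 1440 * e * T * ρ - 1800 * T ^ 2 * e * β ^ 2 +
        u * (43200 * e ^ 2 * ρ + 6 * T * ρ ^ 2 - 680 * T ^ 2 * e * β ^ 3 +
          u * (120 * e * (3 * ρ ^ 2 - T ^ 2 * β ^ 4) + u * (ρ ^ 3 - 8 * T ^ 2 * e * β ^ 5)))) = 0 := by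
    refine mul_left_cancel₀ hu.ne' ?_
    linear_combination 8 * T ^ 2 * h - (u ^ 2 * ((2 * T * a) ^ 2 + (2 * T * a) * (120 * e + ρ * u) +
      (120 * e + ρ * u) ^ 2) + 6 * T * u * (2 * T * a + (120 * e + ρ * u)) + 8 * T ^ 2) * hρ
  by_cases hD : T * ρ + 10800 * e ^ 2 - 274 * e * (T * β) = 0
  · refine Or.inr ⟨by linarith, ?_⟩
    rw [hD, mul_zero, zero_add, mul_eq_zero, or_iff_right hu.ne'] at key
    have h1 : u ∣ 360 * e * (5 * (T * β) ^ 2 - 1096 * e * (T * β) + 38400 * e ^ 2) :=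
      ⟨43200 * e ^ 2 * ρ + 6 * T * ρ ^ 2 - 680 * T ^ 2 * e * β ^ 3 +
          u * (120 * e * (3 * ρ ^ 2 - T ^ 2 * β ^ 4) + u * (ρ ^ 3 - 8 * T ^ 2 * e * β ^ 5)),
        by linear_combination 1440 * e * hD - key⟩
    have h2 := Int.le_of_dvd (abs_pos.2 (mul_ne_zero (by positivity) (form_ne he)))
      ((dvd_abs _ _).2 h1)
    rwa [abs_mul, abs_of_pos (by positivity : 0 < 360 * e)] at h2
  · left
    have h0 : u ∣ 8 * T * (T * ρ + 10800 * e ^ 2 - 274 * e * (T * β)) := ⟨_, by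
      rw [mul_neg]; exact eq_neg_of_add_eq_zero_left key⟩
    have h1 : u ∣ 960 * e * (T * ρ + 10800 * e ^ 2 - 274 * e * (T * β)) := by
      obtain ⟨c, hc⟩ := h0
      exact ⟨2 * a * c - 8 * ρ * (T * ρ + 10800 * e ^ 2 - 274 * e * (T * β)), by
        linear_combination 2 * a * hc - 8 * (T * ρ + 10800 * e ^ 2 - 274 * e * (T * β)) * hρ⟩
    have h2 := Int.le_of_dvd (abs_pos.2 (mul_ne_zero (by positivity) hD)) ((dvd_abs _ _).2 h1)
    rwa [abs_mul, abs_of_pos (by positivity : 0 < 960 * e)] at h2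

lemma cube_le {x y : ℝ} (hy : 0 ≤ y) (h : x ^ 3 ≤ y ^ 3) : x ≤ y :=
  le_of_pow_le_pow_left₀ three_ne_zero hy h

/-- The size estimates. -/
lemma size {e T a u β ρ l r : ℝ} (he : 1 ≤ e) (hT : 1 ≤ T) (ha : 1 ≤ a) (hu : 1 ≤ u) (hβ : 1 ≤ β)
    (hβl : β ≤ l) (hm : T * β ≤ 10 * e * l) (hr : r ^ 3 = l ^ 5) (hr0 : 0 ≤ r)
    (hρ : 2 * T * a = 120 * e + ρ * u)
    (h : T * (a * (a * u + 1) * (a * u + 2)) =
      e * ((β * u + 1) * (β * u + 2) * (β * u + 3) * (β * u + 4) * (β * u + 5)))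
    (hc : u ≤ 960 * e * |T * ρ + 10800 * e ^ 2 - 274 * e * (T * β)| ∨
      (T * ρ + 10800 * e ^ 2 = 274 * e * (T * β) ∧
        u ≤ 360 * e * |5 * (T * β) ^ 2 - 1096 * e * (T * β) + 38400 * e ^ 2|)) :
    a * u ≤ 9 * 2 ^ 76 * e ^ 7 * l ^ 5 := by
  have hl : 1 ≤ l := hβ.trans hβl
  have hlr : l ≤ r := cube_le hr0 (hr ▸ pow_le_pow_right₀ hl (by norm_num))
  have hr1 : 1 ≤ r := hl.trans hlr
  have hx : 1 ≤ β * u := one_le_mul_of_one_le_of_one_le hβ hu
  have hy : 1 ≤ a * u := one_le_mul_of_one_le_of_one_le ha hu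
  have up : T * a ^ 3 ≤ 720 * e * β ^ 5 * u ^ 3 := by
    refine le_of_mul_le_mul_right ?_ (show 0 < u ^ 2 by positivity)
    calc T * a ^ 3 * u ^ 2 = T * (a * (a * u) * (a * u)) := by ring
      _ ≤ T * (a * (a * u + 1) * (a * u + 2)) := by gcongr <;> linarith
      _ ≤ e * ((2 * (β * u)) * (3 * (β * u)) * (4 * (β * u)) * (5 * (β * u)) * (6 * (β * u))) := by
        rw [h]
        gcongr <;> linarith
      _ = _ := by ring
  have lo : e * β ^ 5 * u ^ 3 ≤ 6 * T * a ^ 3 := by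
    refine le_of_mul_le_mul_right ?_ (show 0 < u ^ 2 by positivity)
    calc e * β ^ 5 * u ^ 3 * u ^ 2 = e * ((β * u) * (β * u) * (β * u) * (β * u) * (β * u)) := by ring
      _ ≤ T * (a * (a * u + 1) * (a * u + 2)) := by
        rw [h]
        gcongr <;> linarith
      _ ≤ T * (a * (2 * (a * u)) * (3 * (a * u))) := by gcongr <;> linarith
      _ = _ := by ring
  have he2 : 1 ≤ e ^ 2 := one_le_pow₀ he
  have he3 : e ≤ e ^ 3 := le_self_pow₀ he (by norm_num)
  have her : e ^ 2 ≤ e ^ 2 * r := le_mul_of_one_le_right (by positivity) hr1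
  have hmr : e * (T * β) ≤ 10 * (e ^ 2 * r) := by
    calc e * (T * β) ≤ e * (10 * e * r) :=
          mul_le_mul_of_nonneg_left (hm.trans (by gcongr)) (by positivity)
      _ = _ := by ring
  have hTm : T ≤ T * β := le_mul_of_one_le_right (by positivity) hβ
  have hU : u ≤ 2 ^ 38 * (e ^ 3 * r) := by
    rcases hc with hc | ⟨h0, hc⟩
    · have a1 : T * ρ ≤ 900 * (e ^ 2 * r) := by
        rcases le_or_gt ρ 0 with c | c
        · exact (mul_nonpos_of_nonneg_of_nonpos (by positivity) c).trans (by positivity)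
        refine cube_le (by positivity) (le_of_mul_le_mul_right ?_ (show 0 < u ^ 3 by positivity))
        calc (T * ρ) ^ 3 * u ^ 3 = T ^ 3 * (ρ * u) ^ 3 := by ring
          _ ≤ T ^ 3 * (2 * T * a) ^ 3 := by
            gcongr T ^ 3 * ?_ ^ 3
            linarith
          _ = 8 * T ^ 5 * (T * a ^ 3) := by ring
          _ ≤ 8 * T ^ 5 * (720 * e * β ^ 5 * u ^ 3) := by gcongr
          _ = 5760 * e * (T * β) ^ 5 * u ^ 3 := by ring
          _ ≤ 5760 * e * (10 * e * l) ^ 5 * u ^ 3 := by gcongr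
          _ = 576000000 * (e ^ 6 * l ^ 5 * u ^ 3) := by ring
          _ ≤ 729000000 * (e ^ 6 * l ^ 5 * u ^ 3) := by gcongr; norm_num
          _ = _ := by rw [← hr]; ring
      have a2 : -(120 * e) ≤ ρ := by
        rcases le_or_gt 0 ρ with c | c
        · linarith
        · have : 0 < T * a := by positivity
          nlinarith
      have a3 : -(1200 * (e ^ 2 * r)) ≤ T * ρ := by
        have b1 := mul_le_mul_of_nonneg_left a2 (show 0 ≤ T by positivity)
        have b2 := mul_le_mul_of_nonneg_left hTm (show 0 ≤ e by positivity)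
        linarith
      have a4 : |T * ρ + 10800 * e ^ 2 - 274 * e * (T * β)| ≤ 11700 * (e ^ 2 * r) := by
        have : 0 ≤ e * (T * β) := by positivity
        rw [abs_le]
        constructor <;> linarith
      calc u ≤ 960 * e * (11700 * (e ^ 2 * r)) := hc.trans (by gcongr)
        _ = 11232000 * (e ^ 3 * r) := by ring
        _ ≤ _ := by gcongr; norm_num
    · have he4 : e ^ 3 ≤ e ^ 3 * r := le_mul_of_one_le_right (by positivity) hr1
      rcases le_or_gt (T * a) (120 * e) with c | c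
      · have a1 : u ≤ 240 * e := by
          refine cube_le (by positivity) ?_
          calc u ^ 3 ≤ e * β ^ 5 * u ^ 3 := le_mul_of_one_le_left (by positivity)
                (one_le_mul_of_one_le_of_one_le he (one_le_pow₀ hβ))
            _ ≤ 6 * T * a ^ 3 := lo
            _ ≤ 6 * T ^ 3 * a ^ 3 := by
              gcongr
              exact le_self_pow₀ hT (by norm_num)
            _ = 6 * (T * a) ^ 3 := by ring
            _ ≤ 8 * (120 * e) ^ 3 := by gcongr; norm_num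
            _ = _ := by ring
        linarith
      · have a0 : T * a ≤ ρ * u := by linarith
        have a1 : e * (T * β) ^ 5 ≤ 6 * (T * ρ) ^ 3 := by
          refine le_of_mul_le_mul_right ?_ (show 0 < u ^ 3 by positivity)
          calc e * (T * β) ^ 5 * u ^ 3 = T ^ 5 * (e * β ^ 5 * u ^ 3) := by ring
            _ ≤ T ^ 5 * (6 * T * a ^ 3) := by gcongr
            _ = 6 * T ^ 3 * (T * a) ^ 3 := by ring
            _ ≤ 6 * T ^ 3 * (ρ * u) ^ 3 := by gcongr
            _ = _ := by ring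
        have hρ0 : 0 < ρ := (pos_iff_pos_of_mul_pos (lt_of_lt_of_le (by positivity) a0)).2
          (by positivity)
        have a2 : (T * ρ) ^ 3 ≤ (274 * e * (T * β)) ^ 3 := by
          gcongr ?_ ^ 3
          linarith
        generalize T * β = m at *
        have hm0 : 0 < m := by linarith
        have a3 : m ≤ 11200 * e := by
          refine le_of_pow_le_pow_left₀ two_ne_zero (by positivity)
            (le_of_mul_le_mul_right ?_ (show 0 < e * m ^ 3 by positivity))
          calc m ^ 2 * (e * m ^ 3) = e * m ^ 5 := by ring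
            _ ≤ 6 * (274 * e * m) ^ 3 := by linarith
            _ = 123424944 * (e ^ 3 * m ^ 3) := by ring
            _ ≤ 125440000 * (e ^ 3 * m ^ 3) := by gcongr; norm_num
            _ = _ := by ring
        have a4 : |5 * m ^ 2 - 1096 * e * m + 38400 * e ^ 2| ≤ 700000000 * e ^ 2 := by
          have b1 : m ^ 2 ≤ (11200 * e) ^ 2 := by gcongr
          have b2 : e * m ≤ e * (11200 * e) := by gcongr
          have b3 : 0 ≤ e * m := by positivity
          have b4 : 0 ≤ m ^ 2 := by positivity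
          rw [abs_le]
          constructor <;> linarith
        calc u ≤ 360 * e * (700000000 * e ^ 2) := hc.trans (by gcongr)
          _ = 252000000000 * e ^ 3 := by ring
          _ ≤ _ := by gcongr; norm_num
  have hA : a ≤ 9 * e * r * u := by
    refine cube_le (by positivity) ?_
    calc a ^ 3 ≤ T * a ^ 3 := le_mul_of_one_le_left (by positivity) hT
      _ ≤ 720 * e * β ^ 5 * u ^ 3 := up
      _ ≤ 729 * e ^ 3 * l ^ 5 * u ^ 3 := by gcongr; norm_num
      _ = _ := by rw [← hr]; ring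
  calc a * u ≤ 9 * e * r * u * u := by gcongr
    _ ≤ 9 * e * r * (2 ^ 38 * (e ^ 3 * r)) * (2 ^ 38 * (e ^ 3 * r)) := by gcongr
    _ = _ := by rw [← hr]; ring

/-- The Diophantine bound. -/
theorem arith {e T a u β l : ℕ} (he : 0 < e) (hT : 0 < T) (ha : 0 < a) (hu : 0 < u) (hβ : 0 < β)
    (hβl : β ≤ l) (hm : T * β ≤ 10 * e * l)
    (h : T * (a * (a * u + 1) * (a * u + 2)) =
      e * ((β * u + 1) * (β * u + 2) * (β * u + 3) * (β * u + 4) * (β * u + 5))) :
    a * u ≤ 9 * 2 ^ 76 * e ^ 7 * l ^ 5 := by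
  have hZ : (T : ℤ) * (a * (a * u + 1) * (a * u + 2)) =
      e * ((β * u + 1) * (β * u + 2) * (β * u + 3) * (β * u + 4) * (β * u + 5)) := by
    exact_mod_cast h
  obtain ⟨ρ, hρ⟩ : ∃ ρ : ℤ, 2 * (T : ℤ) * a = 120 * e + ρ * u :=
    ⟨e * (274 * β + 225 * β ^ 2 * u + 85 * β ^ 3 * u ^ 2 + 15 * β ^ 4 * u ^ 3 + β ^ 5 * u ^ 4) -
      T * a * (a ^ 2 * u + 3 * a), by linear_combination hZ⟩
  have hc := dvd_cases (by exact_mod_cast he) (by exact_mod_cast hu) hρ hZ
  have hr : (((l : ℝ) ^ 5) ^ ((3 : ℕ) : ℝ)⁻¹) ^ 3 = l ^ 5 :=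
    Real.rpow_inv_natCast_pow (by positivity) three_ne_zero
  have := size (e := e) (T := T) (a := a) (u := u) (β := β) (ρ := ρ) (l := l)
    (by exact_mod_cast he) (by exact_mod_cast hT) (by exact_mod_cast ha) (by exact_mod_cast hu)
    (by exact_mod_cast hβ) (by exact_mod_cast hβl) (by exact_mod_cast hm) hr (by positivity)
    (by exact_mod_cast hρ) (by exact_mod_cast h) (by exact_mod_cast hc)
  exact_mod_cast this

end Pool.Agent.MP_47ed89_co.H58
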