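import Pool.Agent.MP_47ed89_co.Ineq
import Pool.Agent.MP_47ed89_co.h58.Arith

/-!
Counting in 6-designs: the indices, the moments of the intersection numbers and the lower bound
for the number of blocks.
-/

set_option autoImplicit false

namespace Pool.Agent.MP_47ed89_co.H58

open Finset

variable {X : Type*} [Fintype X] [DecidableEq X]

/-- Every `t`-set lies in exactly `l` members of `B`. -/
def Des (B : Finset (Finset X)) (t l : ℕ) : Prop :=
  ∀ T : Finset X, T.card = t → (B.filter fun b => T ⊆ b).card = l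

lemma Des.step {B : Finset (Finset X)} {k t l : ℕ} (hk : ∀ b ∈ B, b.card = k) (ht : t < k)
    (hv : k ≤ Fintype.card X) (h : Des B (t + 1) l) :
    ∃ l', Des B t l' ∧ l' * (k - t) = l * (Fintype.card X - t) := by
  have key : ∀ T : Finset X, T.card = t →
      (B.filter fun b => T ⊆ b).card * (k - t) = l * (Fintype.card X - t) := by
    intro T hT
    have h1 := sum_card_bipartiteAbove_eq_sum_card_bipartiteBelow (s := Tᶜ)
      (t := B.filter fun b => T ⊆ b) fun x b => x ∈ b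
    rw [sum_congr rfl (g := fun _ => l), sum_congr rfl (s₁ := B.filter _) (g := fun _ => k - t),
      sum_const, sum_const, card_compl, hT, smul_eq_mul, smul_eq_mul] at h1
    · rw [← h1, mul_comm]
    · intro b hb
      rw [← hk b (mem_filter.1 hb).1, ← hT, ← card_sdiff_of_subset (mem_filter.1 hb).2]
      congr 1
      ext x
      simp [bipartiteBelow, and_comm]
    · intro x hx
      rw [← h (insert x T) (by rw [card_insert_of_notMem (mem_compl.1 hx), hT])]
      congr 1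
      ext b
      simp only [bipartiteAbove, mem_filter, insert_subset_iff]
      tauto
  obtain ⟨T0, -, h0⟩ := exists_subset_card_eq (s := (univ : Finset X)) (n := t)
    (by rw [card_univ]; omega)
  exact ⟨_, fun T hT => Nat.eq_of_mul_eq_mul_right (by omega) ((key T hT).trans (key T0 h0).symm),
    key T0 h0⟩

omit [Fintype X] in
lemma Des.moment {B : Finset (Finset X)} {t l : ℕ} (h : Des B t l) (b0 : Finset X) :
    ∑ b ∈ B, ((b0 ∩ b).card.descFactorial t : ℝ) = b0.card.descFactorial t * l := by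
  have h1 := sum_card_bipartiteAbove_eq_sum_card_bipartiteBelow (s := powersetCard t b0)
    (t := B) fun T b => T ⊆ b
  have h2 : ∀ T ∈ powersetCard t b0, (B.bipartiteAbove (fun T b => T ⊆ b) T).card = l :=
    fun T hT => h T (mem_powersetCard.1 hT).2
  rw [sum_congr rfl h2,
    sum_congr rfl (s₁ := B) (g := fun b => (b0 ∩ b).card.choose t), sum_const, card_powersetCard,
    smul_eq_mul] at h1
  · simp only [Nat.descFactorial_eq_factorial_mul_choose, Nat.cast_mul, ← mul_sum, mul_assoc]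
    congr 1
    exact_mod_cast h1.symm
  · intro b _
    rw [← card_powersetCard]
    congr 1
    ext T
    simp only [bipartiteBelow, mem_filter, mem_powersetCard, subset_inter_iff]
    tauto

lemma cast_desc (x j : ℕ) : (x.descFactorial j : ℝ) = ∏ i ∈ range j, ((x : ℝ) - i) := by
  induction j with
  | zero => simp
  | succ j ih =>
    rw [prod_range_succ, ← ih, Nat.descFactorial_succ, Nat.cast_mul, mul_comm]
    rcases le_or_gt j x with c | c
    · rw [Nat.cast_sub c]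
    · simp [Nat.descFactorial_eq_zero_iff_lt.2 c]

lemma sq_expand (A B C D : ℝ) (x : ℕ) :
    (A * (x * (x - 1) * (x - 2)) - B * (x * (x - 1)) + C * x - D) ^ 2 =
      A ^ 2 * x.descFactorial 6 + (9 * A ^ 2 - 2 * A * B) * x.descFactorial 5 +
      (18 * A ^ 2 - 12 * A * B + 2 * A * C + B ^ 2) * x.descFactorial 4 +
      (6 * A ^ 2 - 12 * A * B + 6 * A * C - 2 * A * D + 4 * B ^ 2 - 2 * B * C) * x.descFactorial 3 +
      (2 * B ^ 2 - 4 * B * C + 2 * B * D + C ^ 2) * x.descFactorial 2 +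
      (C ^ 2 - 2 * C * D) * x.descFactorial 1 + D ^ 2 * x.descFactorial 0 := by
  simp only [cast_desc, prod_range_succ, prod_range_zero]
  push_cast
  ring

/-- The indices of a 6-design. -/
structure Idx (B : Finset (Finset X)) (k v l0 l1 l2 l3 l4 l5 l6 : ℕ) : Prop where
  d0 : Des B 0 l0
  d1 : Des B 1 l1
  d2 : Des B 2 l2
  d3 : Des B 3 l3
  d4 : Des B 4 l4
  d5 : Des B 5 l5
  d6 : Des B 6 l6
  e0 : l0 * (k - 0) = l1 * (v - 0)
  e1 : l1 * (k - 1) = l2 * (v - 1)
  e2 : l2 * (k - 2) = l3 * (v - 2)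
  e3 : l3 * (k - 3) = l4 * (v - 3)
  e4 : l4 * (k - 4) = l5 * (v - 4)
  e5 : l5 * (k - 5) = l6 * (v - 5)

lemma Des.idx {B : Finset (Finset X)} {k l : ℕ} (hk : ∀ b ∈ B, b.card = k) (h6 : 6 < k)
    (hv : k ≤ Fintype.card X) (h : Des B 6 l) :
    ∃ l1 l2 l3 l4 l5, Idx B k (Fintype.card X) B.card l1 l2 l3 l4 l5 l := by
  obtain ⟨l5, d5, e5⟩ := Des.step (t := 5) hk (by omega) hv h
  obtain ⟨l4, d4, e4⟩ := Des.step (t := 4) hk (by omega) hv d5
  obtain ⟨l3, d3, e3⟩ := Des.step (t := 3) hk (by omega) hv d4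
  obtain ⟨l2, d2, e2⟩ := Des.step (t := 2) hk (by omega) hv d3
  obtain ⟨l1, d1, e1⟩ := Des.step (t := 1) hk (by omega) hv d2
  obtain ⟨l0, d0, e0⟩ := Des.step (t := 0) hk (by omega) hv d1
  obtain rfl : B.card = l0 := by simpa using d0 ∅ rfl
  exact ⟨l1, l2, l3, l4, l5, d0, d1, d2, d3, d4, d5, h, e0, e1, e2, e3, e4, e5⟩

variable {B : Finset (Finset X)} {k v l1 l2 l3 l4 l5 l : ℕ}

omit [Fintype X] in
/-- The lower bound for the number of blocks (a form of the Ray-Chaudhuri-Wilson inequality). -/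
lemma Idx.blocks (h : Idx B k v B.card l1 l2 l3 l4 l5 l) (hk : ∀ b ∈ B, b.card = k) (h6 : 6 < k)
    (hv : k + 3 ≤ v) (hne : B.Nonempty) : v * (v - 1) * (v - 5) ≤ 6 * B.card := by
  obtain ⟨b0, hb0⟩ := hne
  have hkR : (7 : ℝ) ≤ k := by exact_mod_cast h6
  have hvR : (k : ℝ) + 3 ≤ v := by exact_mod_cast hv
  have cst : ∀ (a b j : ℕ), j ≤ 5 → a * (k - j) = b * (v - j) → (b : ℝ) = a * (k - j) / (v - j) := by
    intro a b j hj e
    have hj' : (j : ℝ) ≤ 5 := by exact_mod_cast hj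
    rw [eq_div_iff (by linarith), ← Nat.cast_sub (by omega), ← Nat.cast_sub (by omega)]
    exact_mod_cast e.symm
  have e0 := cst _ _ 0 (by norm_num) h.e0
  have e1 := cst _ _ 1 (by norm_num) h.e1
  have e2 := cst _ _ 2 (by norm_num) h.e2
  have e3 := cst _ _ 3 (by norm_num) h.e3
  have e4 := cst _ _ 4 (by norm_num) h.e4
  have e5 := cst _ _ 5 (by norm_num) h.e5
  set Φ : ℕ → ℝ := fun x => (((v : ℝ) - 2) * (v - 3) * (v - 4) * (x * (x - 1) * (x - 2)) -
    3 * ((k : ℝ) - 2) ^ 2 * (v - 2) * (v - 3) * (x * (x - 1)) +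
    3 * (((k : ℝ) - 1) * (k - 2)) ^ 2 * (v - 2) * x - ((k : ℝ) * (k - 1) * (k - 2)) ^ 2) ^ 2 with hΦ
  have h1 : Φ k ≤ ∑ b ∈ B, Φ (b0 ∩ b).card := by
    have := single_le_sum (f := fun b => Φ (b0 ∩ b).card) (fun b _ => sq_nonneg _) hb0
    simpa only [inter_self, hk b0 hb0] using this
  have h2 : (∑ b ∈ B, Φ (b0 ∩ b).card) * (v * (v - 1) * (v - 5)) = Φ k * (6 * B.card) := by
    simp only [hΦ]
    rw [sum_congr rfl fun b _ => sq_expand _ _ _ _ (b0 ∩ b).card]
    simp only [sum_add_distrib, ← mul_sum]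
    rw [h.d0.moment, h.d1.moment, h.d2.moment, h.d3.moment, h.d4.moment, h.d5.moment,
      h.d6.moment, hk b0 hb0, e5, e4, e3, e2, e1, e0]
    simp only [cast_desc, prod_range_succ, prod_range_zero]
    push_cast
    have : (v : ℝ) - 0 ≠ 0 := by linarith
    have : (v : ℝ) - 1 ≠ 0 := by linarith
    have : (v : ℝ) - 2 ≠ 0 := by linarith
    have : (v : ℝ) - 3 ≠ 0 := by linarith
    have : (v : ℝ) - 4 ≠ 0 := by linarith
    have : (v : ℝ) - 5 ≠ 0 := by linarith
    field_simp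
    ring
  have h3 : 0 < Φ k := by
    have : Φ k = (k * (k - 1) * (k - 2) * ((v - k) * (v - k - 1) * (v - k - 2))) ^ 2 := by
      simp only [hΦ]
      ring
    rw [this]
    have : (0 : ℝ) < k - 1 := by linarith
    have : (0 : ℝ) < k - 2 := by linarith
    have : (0 : ℝ) < v - k := by linarith
    have : (0 : ℝ) < v - k - 1 := by linarith
    have : (0 : ℝ) < v - k - 2 := by linarith
    positivity
  have h4 : (0 : ℝ) ≤ v * (v - 1) * (v - 5) :=
    mul_nonneg (mul_nonneg (by linarith) (by linarith)) (by linarith)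
  have h5 := le_of_mul_le_mul_left ((mul_le_mul_of_nonneg_right h1 h4).trans h2.le) h3
  rw [← Nat.cast_le (α := ℝ)]
  push_cast [Nat.cast_sub (show 1 ≤ v by omega), Nat.cast_sub (show 5 ≤ v by omega)]
  exact h5

omit [Fintype X] in
lemma Idx.prod (h : Idx B k v B.card l1 l2 l3 l4 l5 l) :
    B.card * (k * (k - 1) * (k - 2) * (k - 3) * (k - 4) * (k - 5)) =
      l * (v * (v - 1) * (v - 2) * (v - 3) * (v - 4) * (v - 5)) := by
  have e0 := h.e0
  have e1 := h.e1
  have e2 := h.e2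
  have e3 := h.e3
  have e4 := h.e4
  have e5 := h.e5
  rw [Nat.sub_zero, Nat.sub_zero] at e0
  zify at *
  linear_combination ((k - 1 : ℕ) * (k - 2 : ℕ) * (k - 3 : ℕ) * (k - 4 : ℕ) * (k - 5 : ℕ) : ℤ) * e0 +
    (v * (k - 2 : ℕ) * (k - 3 : ℕ) * (k - 4 : ℕ) * (k - 5 : ℕ) : ℤ) * e1 +
    (v * (v - 1 : ℕ) * (k - 3 : ℕ) * (k - 4 : ℕ) * (k - 5 : ℕ) : ℤ) * e2 +
    (v * (v - 1 : ℕ) * (v - 2 : ℕ) * (k - 4 : ℕ) * (k - 5 : ℕ) : ℤ) * e3 +
    (v * (v - 1 : ℕ) * (v - 2 : ℕ) * (v - 3 : ℕ) * (k - 5 : ℕ) : ℤ) * e4 +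
    (v * (v - 1 : ℕ) * (v - 2 : ℕ) * (v - 3 : ℕ) * (v - 4 : ℕ) : ℤ) * e5

omit [Fintype X] in
lemma Idx.nonempty (h : Idx B k v B.card l1 l2 l3 l4 l5 l) (hl : 0 < l) (hv : 6 < v) :
    B.Nonempty := by
  rw [← card_pos, Nat.pos_iff_ne_zero]
  intro h0
  have := h.prod
  rw [h0, zero_mul] at this
  obtain ⟨w, rfl⟩ : ∃ w, v = w + 6 := ⟨v - 6, by omega⟩
  exact absurd this (ne_of_lt (by simp; omega))

omit [Fintype X] in
/-- Blocks missing at most two points. -/
lemma Idx.large (h : Idx B k v B.card l1 l2 l3 l4 l5 l) (h6 : 6 < k) (hl : 0 < l) (hkv : k < v)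
    (hv : v ≤ k + 2) : v ≤ 1458 * l := by
  have hB := card_pos.2 (h.nonempty hl (by omega))
  have st : ∀ a b j : ℕ, j ≤ 5 → a * (k - j) = b * (v - j) → a ≤ 3 * b := by
    intro a b j hj e
    refine Nat.le_of_mul_le_mul_right ?_ (show 0 < k - j by omega)
    rw [e, mul_comm 3, mul_assoc]
    exact Nat.mul_le_mul_left _ (by omega)
  have a0 := st _ _ 0 (by norm_num) h.e0
  have a1 := st _ _ 1 (by norm_num) h.e1
  have a2 := st _ _ 2 (by norm_num) h.e2
  have a3 := st _ _ 3 (by norm_num) h.e3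
  have a4 := st _ _ 4 (by norm_num) h.e4
  have a5 := st _ _ 5 (by norm_num) h.e5
  have e0 := h.e0
  rw [Nat.sub_zero, Nat.sub_zero] at e0
  have b1 : l1 + 1 ≤ B.card := by
    by_contra c
    have := Nat.mul_le_mul_right v (show B.card ≤ l1 by omega)
    nlinarith
  have b2 : v ≤ 2 * B.card := by nlinarith
  omega

omit [Fintype X] in
/-- The bound for designs whose number of blocks divides `e v (v - 1) (v - 2)`. -/
lemma Idx.bound (h : Idx B k v B.card l1 l2 l3 l4 l5 l) (hk : ∀ b ∈ B, b.card = k) (h6 : 6 < k)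
    (hl : 0 < l) (hv : k + 3 ≤ v) {s e : ℕ} (he : 0 < e)
    (hs : s * B.card = e * (v * (v - 1) * (v - 2))) :
    v - 5 ≤ 9 * 2 ^ 76 * e ^ 7 * l ^ 5 ∧
      k * (k - 1) * (k - 2) * (k - 3) * (k - 4) * (k - 5) ≤ 10 * l * ((v - 3) * (v - 4) * (v - 5)) := by
  have h1 := h.blocks hk h6 hv (h.nonempty hl (by omega))
  have h2 := h.prod
  have e5 := h.e5
  obtain ⟨x, rfl⟩ : ∃ x, k = x + 5 := ⟨k - 5, by omega⟩
  obtain ⟨y, rfl⟩ : ∃ y, v = y + 5 := ⟨v - 5, by omega⟩
  simp only [Nat.add_sub_cancel, show ∀ z : ℕ, z + 5 - 1 = z + 4 from fun _ => rfl,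
    show ∀ z : ℕ, z + 5 - 2 = z + 3 from fun _ => rfl,
    show ∀ z : ℕ, z + 5 - 3 = z + 2 from fun _ => rfl,
    show ∀ z : ℕ, z + 5 - 4 = z + 1 from fun _ => rfl] at *
  have hy : 5 ≤ y := by omega
  have hs0 : 0 < s := by
    rcases Nat.eq_zero_or_pos s with c | c
    · rw [c, zero_mul] at hs
      exact absurd hs (ne_of_lt (by positivity))
    · exact c
  have hse : s ≤ 10 * e := by
    have a1 : s * y ≤ 6 * e * (y + 3) := by
      refine Nat.le_of_mul_le_mul_left (c := (y + 5) * (y + 4)) ?_ (by positivity)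
      calc _ = s * ((y + 5) * (y + 4) * y) := by ring
        _ ≤ s * (6 * B.card) := Nat.mul_le_mul_left _ h1
        _ = 6 * (s * B.card) := by ring
        _ = _ := by rw [hs]; ring
    refine Nat.le_of_mul_le_mul_right (c := y) ?_ (by omega)
    nlinarith
  have h3 : e * ((x + 5) * (x + 4) * (x + 3) * (x + 2) * (x + 1) * x) =
      s * l * ((y + 2) * (y + 1) * y) := by
    refine Nat.eq_of_mul_eq_mul_left (show 0 < (y + 5) * (y + 4) * (y + 3) by positivity) ?_
    zify at hs h2 ⊢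
    linear_combination (s : ℤ) * h2 - ((x + 5) * (x + 4) * (x + 3) * (x + 2) * (x + 1) * x : ℤ) * hs
  constructor
  · obtain ⟨β, a, hc, hx, hy'⟩ := Nat.exists_coprime x y
    have hu : 0 < x.gcd y := Nat.gcd_pos_of_pos_right _ (by omega)
    generalize x.gcd y = u at hx hy' hu
    subst hx hy'
    have hβ : 0 < β := Nat.pos_of_mul_pos_right (show 0 < β * u by omega)
    have ha : 0 < a := Nat.pos_of_mul_pos_right (show 0 < a * u by omega)
    obtain ⟨τ, rfl⟩ : β ∣ l := hc.dvd_of_dvd_mul_right ⟨l5, by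
      refine Nat.eq_of_mul_eq_mul_right hu ?_
      rw [mul_assoc, ← e5]
      ring⟩
    have hτ : 0 < τ := Nat.pos_of_mul_pos_left hl
    refine arith (T := s * τ) he (by positivity) ha hu hβ (Nat.le_mul_of_pos_right _ hτ) ?_ ?_
    · calc s * τ * β = s * (β * τ) := by ring
        _ ≤ _ := by gcongr
    · refine Nat.eq_of_mul_eq_mul_left (show 0 < β * u by positivity) ?_
      zify at h3 ⊢
      linear_combination -h3
  · refine Nat.le_of_mul_le_mul_left (c := e) ?_ he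
    rw [h3, ← mul_assoc, ← mul_assoc, ← mul_assoc, ← mul_assoc, ← mul_assoc, ← mul_assoc]
    gcongr
    omega

end Pool.Agent.MP_47ed89_co.H58
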