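import Mathlib.LinearAlgebra.Dual.Lemmas
import Mathlib.LinearAlgebra.AffineSpace.AffineEquiv
import Mathlib.FieldTheory.Finiteness
import Pool.Agent.MP_47ed89_co.h58.Moment

/-!
Block-transitive 6-designs under the affine group over the field with two elements.
-/

set_option autoImplicit false

namespace Pool.Agent.MP_47ed89_co.H58

open Finset Module

variable {V : Type} [AddCommGroup V] [Module (ZMod 2) V]

lemma two_cases (c : ZMod 2) : c = 0 ∨ c = 1 := by
  revert c
  decide

lemma self_add (x : V) : x + x = 0 := by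
  rw [← two_smul (ZMod 2), show (2 : ZMod 2) = 0 from rfl, zero_smul]

/-- The transvection attached to a linear form and a vector in its kernel. -/
def tau (f : Dual (ZMod 2) V) (w : V) (h : f w = 0) : V ≃ᵃ[ZMod 2] V :=
  (LinearEquiv.ofInvolutive (LinearMap.id + f.smulRight w) fun x => by
    simp [h, add_assoc, self_add]).toAffineEquiv

lemma tau_apply (f : Dual (ZMod 2) V) (w : V) (h : f w = 0) (x : V) :
    tau f w h x = x + f x • w := rfl

variable [DecidableEq V]

lemma mem_tau {f : Dual (ZMod 2) V} {w : V} (h : f w = 0) (b : Finset V) (x : V) :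
    x ∈ b.image (tau f w h) ↔ x + f x • w ∈ b := by
  have inv : ∀ y, tau f w h (tau f w h y) = y := fun y => by
    simp [tau_apply, h, add_assoc, self_add]
  rw [mem_image, ← tau_apply f w h]
  exact ⟨fun ⟨y, hy, e⟩ => by rwa [← e, inv], fun hx => ⟨_, hx, inv x⟩⟩

variable [Fintype V] {B : Finset (Finset V)} {S b0 : Finset V}

omit [Fintype V] in
lemma tau_mem (hinv : ∀ g : V ≃ᵃ[ZMod 2] V, ∀ b ∈ B, b.image g ∈ B) (h0 : b0 ∈ B) (hS : S ⊆ b0)
    {f : Dual (ZMod 2) V} {w : V} (h : f w = 0) (hf : ∀ x ∈ S, f x = 0) :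
    b0.image (tau f w h) ∈ B.filter fun b => S ⊆ b :=
  mem_filter.2 ⟨hinv _ _ h0, fun x hx => (mem_tau h b0 x).2 (by simpa [hf x hx] using hS hx)⟩

/-- A point outside `W` can be moved to half of all points. -/
lemma cover (hinv : ∀ g : V ≃ᵃ[ZMod 2] V, ∀ b ∈ B, b.image g ∈ B) (h0 : b0 ∈ B) (hS : S ⊆ b0)
    {W : Submodule (ZMod 2) V} (hW : ∀ x ∈ S, x ∈ W) {x0 : V} (hx : x0 ∉ W)
    (c : Finset V → Finset V) (n : ℕ) (hn : ∀ b ∈ B, (c b).card ≤ n)
    (hc : ∀ b y, (y ∈ b ↔ x0 ∈ b0) → y ∈ c b) :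
    Fintype.card V ≤ 2 * ((B.filter fun b => S ⊆ b).card * n) := by
  obtain ⟨f, h1, h2⟩ := W.exists_dual_map_eq_bot_of_notMem hx inferInstance
  have hf : ∀ x ∈ S, f x = 0 := fun x hx' => by
    rw [← Submodule.mem_bot (ZMod 2), ← h2]
    exact Submodule.mem_map_of_mem (hW x hx')
  have f0 : f x0 = 1 := (two_cases _).resolve_left h1
  have a1 : (univ : Finset V) ⊆ (univ.filter fun y => f y = 1) ∪
      (univ.filter fun y => f y = 1).image (· + x0) := fun y _ => by
    rcases two_cases (f y) with e | e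
    · exact mem_union_right _ (mem_image.2 ⟨y + x0, by simp [e, f0], by simp [add_assoc, self_add]⟩)
    · exact mem_union_left _ (by simp [e])
  have a2 : (univ.filter fun y => f y = 1) ⊆ (B.filter fun b => S ⊆ b).biUnion c := fun y hy => by
    have e := (mem_filter.1 hy).2
    have h : f (y + x0) = 0 := by rw [map_add, e, f0]; rfl
    refine mem_biUnion.2 ⟨_, tau_mem hinv h0 hS h hf, hc _ _ ?_⟩
    rw [mem_tau, e, one_smul, ← add_assoc, self_add, zero_add]
  have a3 := (card_le_card a2).trans (card_biUnion_le_card_mul _ _ n fun b hb =>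
    hn b (mem_filter.1 hb).1)
  have a4 := (card_le_card a1).trans (card_union_le _ _)
  have a5 := card_image_le (s := univ.filter fun y => f y = 1) (f := (· + x0))
  rw [card_univ] at a4
  omega

omit [DecidableEq V] in
lemma card_sub {M : Type} [AddCommGroup M] [Module (ZMod 2) M] [Module.Finite (ZMod 2) M]
    (P : Submodule (ZMod 2) M) : Nat.card P = 2 ^ finrank (ZMod 2) P := by
  rw [Module.natCard_eq_pow_finrank (K := ZMod 2), Nat.card_zmod]

/-- The transvections in a fixed direction. -/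
lemma orbit (hinv : ∀ g : V ≃ᵃ[ZMod 2] V, ∀ b ∈ B, b.image g ∈ B) (h0 : b0 ∈ B) (hS : S ⊆ b0)
    {U : Submodule (ZMod 2) V} (hU : ∀ x ∈ S, x ∈ U) {w : V} (hw : w ∈ U) :
    (b0.filter fun x => x + w ∉ b0).card ≤
      2 ^ finrank (ZMod 2) U * (B.filter fun b => S ⊆ b).card := by
  classical
  set N := b0.filter fun x => x + w ∉ b0 with hN
  set U' := U ⊔ Submodule.span (ZMod 2) (N : Set V) with hU'
  have : Finite (Dual (ZMod 2) V) := Module.finite_of_finite (ZMod 2)
  have : Fintype U.dualAnnihilator := Fintype.ofFinite _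
  have hz : ∀ f : U.dualAnnihilator, ∀ x ∈ U, f.1 x = 0 := fun f =>
    (Submodule.mem_dualAnnihilator _).1 f.2
  have a1 := card_le_mul_card_image_of_maps_to (s := univ) (t := B.filter fun b => S ⊆ b)
    (f := fun f : U.dualAnnihilator => b0.image (tau f.1 w (hz f w hw)))
    (fun f _ => tau_mem hinv h0 hS _ fun x hx => hz f x (hU x hx)) (Nat.card U'.dualAnnihilator)
    fun b _ => by
      rcases (univ.filter fun f : U.dualAnnihilator =>
        b0.image (tau f.1 w (hz f w hw)) = b).eq_empty_or_nonempty with e | ⟨f0, hf0⟩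
      · simp [e]
      rw [← Nat.card_eq_finsetCard]
      refine Nat.card_le_card_of_injective (fun f => ⟨f.1.1 - f0.1, ?_⟩) fun f g e =>
        Subtype.ext (Subtype.ext (sub_left_injective (congrArg Subtype.val e)))
      rw [Submodule.dualAnnihilator_sup_eq]
      refine ⟨sub_mem f.1.2 f0.2, (Submodule.mem_dualAnnihilator _).2 fun x hx => ?_⟩
      refine (Submodule.span_le (p := LinearMap.ker (f.1.1 - f0.1))).2 (fun x hx => ?_) hx
      have e := (mem_filter.1 f.2).2.trans (mem_filter.1 hf0).2.symm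
      have e' := mem_tau (hz f0 w hw) b0 x
      rw [← e, mem_tau] at e'
      obtain ⟨c1, c2⟩ := mem_filter.1 (mem_coe.1 hx)
      rcases two_cases (f.1.1 x) with p | p <;> rcases two_cases (f0.1 x) with q | q <;>
        simp_all
  rw [card_univ, ← Nat.card_eq_fintype_card, card_sub, card_sub] at a1
  have a2 : N.card ≤ 2 ^ finrank (ZMod 2) U' := by
    rw [← card_sub, ← Nat.card_eq_finsetCard]
    refine Nat.card_le_card_of_injective (fun x => ⟨x.1, Submodule.mem_sup_right
      (Submodule.subset_span x.2)⟩) fun x y e => Subtype.ext ?_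
    exact congrArg (fun z : U' => z.1) e
  have b1 := Subspace.finrank_add_finrank_dualAnnihilator_eq U
  have b2 := Subspace.finrank_add_finrank_dualAnnihilator_eq U'
  refine a2.trans (Nat.le_of_mul_le_mul_left (c := 2 ^ finrank (ZMod 2) U'.dualAnnihilator) ?_
    (by positivity))
  rw [← pow_add, add_comm, b2, ← b1, pow_add, mul_left_comm]
  exact Nat.mul_le_mul_left _ a1

omit [Module (ZMod 2) V] in
lemma average (b : Finset V) :
    ∃ w, b.card * bᶜ.card ≤ Fintype.card V * (b.filter fun x => x + w ∉ b).card := by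
  have h : ∑ w : V, (b.filter fun x => x + w ∉ b).card = b.card * bᶜ.card := by
    simp only [card_filter]
    rw [sum_comm, ← smul_eq_mul, ← sum_const]
    refine sum_congr rfl fun x _ => ?_
    refine (Equiv.sum_comp (Equiv.addLeft x) fun y => if y ∉ b then 1 else 0).trans ?_
    rw [← card_filter]
    congr 1
    ext y
    simp
  obtain ⟨w, -, hw⟩ := exists_max_image univ (fun w => (b.filter fun x => x + w ∉ b).card)
    ⟨0, mem_univ _⟩
  exact ⟨w, h ▸ (sum_le_card_nsmul _ _ _ hw).trans (by simp)⟩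

theorem affine {k l : ℕ} (h5 : 5 ≤ finrank (ZMod 2) V) (hk : ∀ b ∈ B, b.card = k) (h6 : 6 < k)
    (hkv : k < Fintype.card V) (hl : 0 < l) (hd : Des B 6 l)
    (hinv : ∀ g : V ≃ᵃ[ZMod 2] V, ∀ b ∈ B, b.image g ∈ B)
    (htr : ∀ b₁ ∈ B, ∀ b₂ ∈ B, ∃ g : V ≃ᵃ[ZMod 2] V, b₁.image g = b₂) :
    Fintype.card V ≤ 2 ^ 11 * l ^ 2 := by
  classical
  rcases le_or_gt (Fintype.card V) (k + 2) with hv | hv
  · obtain ⟨l1, l2, l3, l4, l5, h⟩ := hd.idx hk h6 hkv.le
    have := h.large h6 hl hkv hv
    nlinarith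
  have ex : ∀ T : Finset V, T.card = 6 → ∃ b ∈ B, T ⊆ b := fun T hT => by
    obtain ⟨b, hb⟩ := card_pos.1 (hd T hT ▸ hl)
    exact ⟨b, mem_filter.1 hb⟩
  obtain ⟨e, he⟩ := exists_linearIndependent_of_le_finrank h5
  have he3 := he.comp (Fin.castLE (show 3 ≤ 5 by norm_num)) (Fin.castLE_injective _)
  have hW := finrank_span_eq_card he3
  rw [Fintype.card_fin] at hW
  generalize Submodule.span (ZMod 2) (Set.range (e ∘ Fin.castLE _)) = W at hW
  have hWc : (univ.filter fun x => x ∈ W).card = 8 := by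
    rw [← Fintype.card_subtype, ← Nat.card_eq_fintype_card, card_sub, hW]
    rfl
  obtain ⟨S, hS, hS6⟩ := exists_subset_card_eq (s := univ.filter fun x => x ∈ W) (n := 6)
    (by omega)
  have hSW : ∀ x ∈ S, x ∈ W := fun x hx => (mem_filter.1 (hS hx)).2
  obtain ⟨b0, h0, hb0⟩ := ex S hS6
  have hc : ∀ b ∈ B, bᶜ.card = Fintype.card V - k := fun b hb => by rw [card_compl, hk b hb]
  obtain ⟨x0, hx0, hx0'⟩ : ∃ x ∈ b0, x ∉ W := by
    by_contra! hcon
    obtain ⟨b2, h2, hb2⟩ := ex (insert 0 (univ.image e)) (by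
      rw [card_insert_of_notMem (by simpa using fun i => he.ne_zero i),
        card_image_of_injective _ he.injective]
      rfl)
    obtain ⟨g, rfl⟩ := htr b0 h0 b2 h2
    obtain ⟨p, hp, hp0⟩ := mem_image.1 (hb2 (mem_insert_self _ _))
    have a1 : Submodule.span (ZMod 2) (Set.range e) ≤ W.map g.linear.toLinearMap := by
      rw [Submodule.span_le]
      rintro _ ⟨i, rfl⟩
      obtain ⟨x, hx, hxi⟩ := mem_image.1 (hb2 (mem_insert_of_mem (mem_image_of_mem e (mem_univ i))))
      refine ⟨x - p, sub_mem (hcon x hx) (hcon p hp), ?_⟩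
      have := g.toAffineMap.linearMap_vsub x p
      simpa [hxi, hp0] using this
    have a2 := (Submodule.finrank_mono a1).trans (Submodule.finrank_map_le _ _)
    rw [finrank_span_eq_card he, hW] at a2
    simp at a2
  obtain ⟨x1, hx1, hx1'⟩ : ∃ x ∉ b0, x ∉ W := by
    by_contra! hcon
    have := card_le_card (show b0ᶜ ⊆ (univ.filter fun x => x ∈ W) \ S from fun x hx =>
      mem_sdiff.2 ⟨mem_filter.2 ⟨mem_univ _, hcon x (mem_compl.1 hx)⟩,
        fun h => mem_compl.1 hx (hb0 h)⟩)
    rw [card_sdiff_of_subset hS, hc b0 h0] at this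
    omega
  have c1 := cover hinv h0 hb0 hSW hx0' id k (fun b hb => (hk b hb).le) fun b y h => h.2 hx0
  have c2 := cover hinv h0 hb0 hSW hx1' compl _ (fun b hb => (hc b hb).le)
    fun b y h => mem_compl.2 fun hy => hx1 (h.1 hy)
  obtain ⟨w, hw⟩ := average b0
  have c3 := orbit hinv h0 hb0 (U := W ⊔ Submodule.span (ZMod 2) {w})
    (fun x hx => Submodule.mem_sup_left (hSW x hx))
    (Submodule.mem_sup_right (Submodule.subset_span rfl))
  have c4 : finrank (ZMod 2) (W ⊔ Submodule.span (ZMod 2) {w} : Submodule (ZMod 2) V) ≤ 4 := by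
    have a1 := Submodule.finrank_add_le_finrank_add_finrank W (Submodule.span (ZMod 2) {w})
    have a2 := finrank_span_le_card (R := ZMod 2) ({w} : Set V)
    rw [Set.toFinset_singleton, card_singleton] at a2
    omega
  have c5 := c3.trans (Nat.mul_le_mul_right _ (Nat.pow_le_pow_right two_pos c4))
  rw [hd S hS6] at c1 c2 c5
  rw [hk b0 h0, hc b0 h0] at hw
  have c6 := hw.trans (Nat.mul_le_mul_left _ c5)
  obtain ⟨m, hm⟩ : ∃ m, Fintype.card V = k + m := ⟨Fintype.card V - k, by omega⟩
  rw [hm, Nat.add_sub_cancel_left] at c2 c6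
  rw [hm] at c1 hv ⊢
  rcases le_total k m with c | c
  · have : k ≤ 32 * l := Nat.le_of_mul_le_mul_right (c := m) (by nlinarith) (by omega)
    nlinarith
  · have : m ≤ 32 * l := Nat.le_of_mul_le_mul_right (c := k) (by nlinarith) (by omega)
    nlinarith

end Pool.Agent.MP_47ed89_co.H58
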