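import Pool.Agent.MP_47ed89_co.h58.Moment

/-!
Block-transitive 6-designs on the projective line.
-/

set_option autoImplicit false

namespace Pool.Agent.MP_47ed89_co.H58

open Finset
open scoped LinearAlgebra.Projectivization Pointwise

lemma odd_arith {q k e l : ℕ} (hq : 9 ≤ q) (hk : 7 ≤ k)
    (h1 : (q - 1) * (q - 3) * (q - 5) ≤ 2 * e * (q + 1) * (k * (k - 2) * (k - 4)))
    (h2 : k * (k - 1) * (k - 2) * (k - 3) * (k - 4) * (k - 5) ≤
      10 * l * ((q + 1 - 3) * (q + 1 - 4) * (q + 1 - 5))) : q ≤ 2 ^ 15 * l * e ^ 2 := by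
  have a1 : q ^ 2 ≤ 9 * e * k ^ 3 := by
    refine Nat.le_of_mul_le_mul_left (c := 2 * (q + 1)) ?_ (by positivity)
    have b1 : 2 * (q + 1) * q ^ 2 ≤ 9 * ((q - 1) * (q - 3) * (q - 5)) := by
      obtain ⟨t, rfl⟩ : ∃ t, q = t + 9 := ⟨q - 9, by omega⟩
      rw [show t + 9 - 1 = t + 8 from rfl, show t + 9 - 3 = t + 6 from rfl,
        show t + 9 - 5 = t + 4 from rfl]
      nlinarith [Nat.zero_le (t ^ 3), Nat.zero_le (t ^ 2)]
    have b2 : k * (k - 2) * (k - 4) ≤ k * k * k := by gcongr <;> omega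
    calc _ ≤ 9 * (2 * e * (q + 1) * (k * k * k)) :=
          b1.trans (Nat.mul_le_mul_left _ (h1.trans (Nat.mul_le_mul_left _ b2)))
      _ = _ := by ring
  have a2 : k ^ 6 ≤ 240 * l * q ^ 3 := by
    refine Nat.le_of_mul_le_mul_left (c := 720) ?_ (by norm_num)
    calc 720 * k ^ 6 = k * (6 * k) * (5 * k) * (4 * k) * (3 * k) * (2 * k) := by ring
      _ ≤ k * (7 * (k - 1)) * (7 * (k - 2)) * (7 * (k - 3)) * (7 * (k - 4)) * (7 * (k - 5)) := by
        gcongr k * ?_ * ?_ * ?_ * ?_ * ?_ <;> omega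
      _ = 16807 * (k * (k - 1) * (k - 2) * (k - 3) * (k - 4) * (k - 5)) := by ring
      _ ≤ 17280 * (10 * l * (q * q * q)) := by
        refine Nat.mul_le_mul (by norm_num) (h2.trans ?_)
        gcongr <;> omega
      _ = _ := by ring
  refine Nat.le_of_mul_le_mul_right (c := q ^ 3) ?_ (by positivity)
  calc q * q ^ 3 = (q ^ 2) ^ 2 := by ring
    _ ≤ (9 * e * k ^ 3) ^ 2 := by gcongr
    _ = 81 * e ^ 2 * k ^ 6 := by ring
    _ ≤ 81 * e ^ 2 * (240 * l * q ^ 3) := by gcongr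
    _ = 19440 * (l * e ^ 2 * q ^ 3) := by ring
    _ ≤ 2 ^ 15 * (l * e ^ 2 * q ^ 3) := by gcongr; norm_num
    _ = _ := by ring

variable {F : Type} [Field F] [Fintype F] [Fintype (ℙ F (Fin 2 → F))]
  [DecidableEq (ℙ F (Fin 2 → F))] {G : Subgroup (Equiv.Perm (ℙ F (Fin 2 → F)))}
  {B : Finset (Finset (ℙ F (Fin 2 → F)))} {k l : ℕ}

omit [DecidableEq (ℙ F (Fin 2 → F))] in
lemma card_line' : Fintype.card (ℙ F (Fin 2 → F)) = Fintype.card F + 1 := by
  rw [← Nat.card_eq_fintype_card, card_line]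

omit [Fintype (ℙ F (Fin 2 → F))] in
/-- The number of blocks divides `e (q + 1) q (q - 1)` with `2 ^ e ≤ q`. -/
lemma blocks_dvd (hG : ∀ σ ∈ G, IsPGammaL σ) (hne : B.Nonempty)
    (hinv : ∀ σ ∈ G, ∀ b ∈ B, b.image σ ∈ B)
    (htr : ∀ b₁ ∈ B, ∀ b₂ ∈ B, ∃ σ ∈ G, b₁.image σ = b₂) :
    ∃ s e, 0 < e ∧ 2 ^ e ≤ Fintype.card F ∧
      s * B.card = e * ((Fintype.card F + 1) * Fintype.card F * (Fintype.card F - 1)) ∧
      Nat.card G ≤ e * ((Fintype.card F + 1) * Fintype.card F * (Fintype.card F - 1)) := by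
  obtain ⟨e, g, h1, h2, c, hc⟩ := card_subgroup G hG
  obtain ⟨b, hb⟩ := hne
  have h3 := card_mul_stab G B hinv htr b hb
  have : Finite (ℙ F (Fin 2 → F)) := Nat.finite_of_card_ne_zero (by rw [card_line]; omega)
  have h4 : 0 < Nat.card G := Nat.card_pos
  have h5 : 0 < c := by
    refine Nat.pos_of_ne_zero fun h => ?_
    have := Fintype.one_lt_card (α := F)
    rw [h, mul_zero] at hc
    exact absurd hc (ne_of_gt (by have : 0 < Fintype.card F - 1 := by omega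
                                  positivity))
  refine ⟨Nat.card (MulAction.stabilizer G b) * c, e, Nat.pos_of_mul_pos_right (h1 ▸ h4),
    (Nat.pow_le_pow_right two_pos h2).trans card_aut_le, ?_, ?_⟩
  · rw [hc, ← mul_assoc e, ← h1, ← h3]
    ring
  · rw [h1, hc]
    exact Nat.mul_le_mul_left _ (Nat.le_mul_of_pos_right _ h5)

theorem proj (hG : ∀ σ ∈ G, IsPGammaL σ) (hk : ∀ b ∈ B, b.card = k) (h6 : 6 < k)
    (hkv : k < Fintype.card F + 1) (hl : 0 < l) (hd : Des B 6 l)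
    (hinv : ∀ σ ∈ G, ∀ b ∈ B, b.image σ ∈ B)
    (htr : ∀ b₁ ∈ B, ∀ b₂ ∈ B, ∃ σ ∈ G, b₁.image σ = b₂) :
    Fintype.card F ≤ 2 ^ 80 * l ^ 5 * Nat.log 2 (Fintype.card F) ^ 7 ∧
      ((∀ σ, IsPSL σ → σ ∈ G) → Odd l →
        Fintype.card F ≤ 2 ^ 15 * l * Nat.log 2 (Fintype.card F) ^ 2) := by
  obtain ⟨l1, l2, l3, l4, l5, h⟩ := hd.idx hk h6 (by rw [card_line']; omega)
  rw [card_line'] at h
  have hne := h.nonempty hl (by omega)
  obtain ⟨s, e, he, hq, hs, hGe⟩ := blocks_dvd hG hne hinv htr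
  have hL : e ≤ Nat.log 2 (Fintype.card F) := Nat.le_log_of_pow_le one_lt_two hq
  have hI := fun h1 (h2 : Odd l) => main_ineq G h1 B k hk hinv htr hne fun T hT => hd T hT ▸ h2
  generalize Nat.log 2 (Fintype.card F) = L at *
  generalize Fintype.card F = q at *
  have hL1 : 0 < L := by omega
  rcases le_or_gt (q + 1) (k + 2) with hv | hv
  · have a1 := h.large h6 hl hkv hv
    have a2 : l ≤ l ^ 5 * L ^ 7 :=
      (Nat.le_self_pow (by norm_num) l).trans (Nat.le_mul_of_pos_right _ (by positivity))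
    have a3 : l ≤ l * L ^ 2 := Nat.le_mul_of_pos_right _ (by positivity)
    rw [mul_assoc, mul_assoc]
    exact ⟨by omega, fun _ _ => by omega⟩
  obtain ⟨b1, b2⟩ := h.bound hk h6 hl hv he hs
  constructor
  · have a1 : e ^ 7 * l ^ 5 ≤ l ^ 5 * L ^ 7 := by rw [mul_comm]; gcongr
    have a2 : 0 < l ^ 5 * L ^ 7 := by positivity
    rw [mul_assoc] at b1 ⊢
    omega
  · intro h1 h2
    refine (odd_arith (by omega) h6 (e := e) ?_ b2).trans (by gcongr)
    refine Nat.le_of_mul_le_mul_left (c := q * (q - 1)) ?_ (Nat.mul_pos (by omega) (by omega))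
    calc _ ≤ 2 * (e * ((q + 1) * q * (q - 1))) * (k * (k - 2) * (k - 4)) :=
          (Nat.le_add_right _ _).trans ((hI h1 h2).trans (by gcongr))
      _ = _ := by ring

end Pool.Agent.MP_47ed89_co.H58
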